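import Mathlib

/-!
# A badly approximable `α` for which `{n² α}` is not Poissonian

`α = ∑ 2 ^ (-2 ^ j)` is badly approximable, but the denominators `Q = 2 ^ (2 ^ j)` of infinitely many of its
convergents are squares `Q = u²`. For `n = u l` the number `n² α` differs from an integer by at most `2 l² / Q`; the
`N / u` multiples of `u` up to `N` (about `Q ^ (2/3)`) give so many points in an interval of length `s / N` that the
correlations of level at least `5` tend to infinity.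

The definitions:
* `alpha` : the number `∑ 2 ^ (-2 ^ j)`;
* `IsType α κ` : `|α - a/q| ≥ C q ^ (-κ)` for some `C > 0` and all reduced fractions;
* `x α n` : the fractional part of `n² α`;
* `Tuples k N` : the `k`-tuples of distinct integers in `[1, N]`;
* `R α r f N` : the correlation `R_{r+1}(f, N)` of level `r + 1`;
* `Poissonian α` : for all `r ≥ 1` and `f ∈ C_c(ℝ^r)` the correlation `R_{r+1}(f, N)` tends to `∫ f`.
-/

open Filter Topology MeasureTheory

namespace Pool.Agent.Results.MP_0a44cb_nt.BadlyApproximable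

/-- the inequality behind the induction -/
lemma ineq (Q m M T : ℤ) (hQ : 256 ≤ Q) (hm : 0 < m) (hmQ : m < Q) (hT : 0 < T) (hMm : m ≤ M)
    (hM : Q * T - m ≤ M) (hG : Q * min m T + Q + 512 * min m T ≤ 256 * m * T * min m T) :
    Q ^ 2 * m + Q ^ 2 + 512 * m ≤ 256 * m * M * m := by
  have hQ0 : 0 < Q := by linarith
  -- weak form
  have hG' : Q * m + Q + 512 * m ≤ 256 * m * T * m := by
    rcases le_total m T with h | h
    · rwa [min_eq_left h] at hG
    · rw [min_eq_right h] at hG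
      have h1 : T * (Q * m + Q + 512 * m) ≤ T * (256 * m * T * m) := by nlinarith
      exact le_of_mul_le_mul_left h1 hT
  have hmM : m ^ 2 * (Q * T - m) ≤ m ^ 2 * M := mul_le_mul_of_nonneg_left hM (by positivity)
  rcases le_or_gt (m ^ 2) Q with hA | hB
  · have h1 : Q * (Q * m + Q + 512 * m) ≤ Q * (256 * m * T * m) :=
      mul_le_mul_of_nonneg_left hG' hQ0.le
    have h2 : m * m ^ 2 ≤ m * Q := mul_le_mul_of_nonneg_left hA hm.le
    nlinarith
  · rcases le_or_gt Q (T ^ 2) with hC | hC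
    · have hT2 : 2 ≤ T := by nlinarith
      have hmT : Q ≤ m * T := by
        by_contra hcon
        push Not at hcon
        nlinarith [mul_pos hm hT]
      have h3 : Q * (T - 1) ≤ M := by nlinarith
      have h4 : Q ≤ 2 * (m * (T - 1)) := by nlinarith
      have h5 : m ^ 2 * (Q * (T - 1)) ≤ m ^ 2 * M := mul_le_mul_of_nonneg_left h3 (by positivity)
      have h6 : (m * Q) * Q ≤ (m * Q) * (2 * (m * (T - 1))) :=
        mul_le_mul_of_nonneg_left h4 (by positivity)
      nlinarith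
    · have hTm : T < m := by nlinarith
      rcases le_or_gt Q (2 * m) with hD | hD
      · have h5 : m ^ 2 * m ≤ m ^ 2 * M := mul_le_mul_of_nonneg_left hMm (by positivity)
        have h6 : Q ^ 2 ≤ (2 * m) ^ 2 := by nlinarith
        have h7 : m * Q ^ 2 ≤ m * (2 * m) ^ 2 := mul_le_mul_of_nonneg_left h6 hm.le
        nlinarith
      · rcases le_or_gt Q (32 * (m * T)) with hE | hE
        · have h3 : Q * T ≤ 2 * M := by nlinarith
          have h5 : m ^ 2 * (Q * T) ≤ m ^ 2 * (2 * M) := mul_le_mul_of_nonneg_left h3 (by positivity)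
          have h6 : (m * Q) * Q ≤ (m * Q) * (32 * (m * T)) :=
            mul_le_mul_of_nonneg_left hE (by positivity)
          nlinarith
        · rw [min_eq_right hTm.le] at hG
          have h1 : (Q * m * T) * (Q * T + Q + 512 * T) ≤ (Q * m * T) * (256 * m * T * T) :=
            mul_le_mul_of_nonneg_left hG (by positivity)
          have h2 : (32 * (m * T)) ^ 2 ≤ Q ^ 2 := by
            apply pow_le_pow_left₀ (by positivity) hE.le
          have h3 : m * (32 * (m * T)) ^ 2 ≤ m * Q ^ 2 := mul_le_mul_of_nonneg_left h2 hm.le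
          have h4 : 0 ≤ 4 * (T * (m - T)) - m := by nlinarith
          have h5 : 0 ≤ Q ^ 2 * (4 * (T * (m - T)) - m) := by positivity
          have h6 : T ^ 2 * (m ^ 2 * (Q * T - m)) ≤ T ^ 2 * (m ^ 2 * M) :=
            mul_le_mul_of_nonneg_left hmM (by positivity)
          have h7 : 0 ≤ (Q - 1) * (m * T ^ 2) := by
            have : 0 ≤ Q - 1 := by linarith
            positivity
          have h8 : T ^ 2 * (Q ^ 2 * m + Q ^ 2 + 512 * m) ≤ T ^ 2 * (256 * m * M * m) := by nlinarith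
          exact le_of_mul_le_mul_left h8 (by positivity)

/-- the property proved by induction: `t = Pn - aQ` is never small compared with `Q / n` -/
def Good (Q P : ℤ) : Prop :=
  ∀ n t : ℤ, 0 < |n| → |n| < Q → Q ∣ t - P * n →
    0 < |t| ∧ Q * min |n| |t| + Q + 512 * min |n| |t| ≤ 256 * |n| * |t| * min |n| |t|

lemma step {Q P : ℤ} (hQ : 256 ≤ Q) (h : Good Q P) : Good (Q ^ 2) (P * Q + 1) := by
  intro b r hb hbQ hdvd
  have hQ0 : 0 < Q := by linarith
  have hr : 0 < |r| := by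
    rw [abs_pos]
    rintro rfl
    rw [zero_sub, dvd_neg] at hdvd
    have hc : IsCoprime (Q ^ 2) (P * Q + 1) := by
      apply IsCoprime.pow_left
      exact ⟨-P, 1, by ring⟩
    have h1 : Q ^ 2 ∣ b := hc.dvd_of_dvd_mul_left hdvd
    have h2 := Int.le_of_dvd (abs_pos.mpr (by
      rintro rfl
      simp at hb)) ((dvd_abs _ _).mpr h1)
    linarith
  refine ⟨hr, ?_⟩
  obtain ⟨w, hw⟩ := hdvd
  set t : ℤ := P * b + Q * w with ht
  have hrt : r = b + Q * t := by rw [ht]; linear_combination hw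
  have hdb : Q ∣ t - P * b := ⟨w, by rw [ht]; ring⟩
  have hdr : Q ∣ t - P * r := ⟨w - P * t, by rw [hrt, ht]; ring⟩
  -- the general claim
  have key : ∀ m M : ℤ, 0 < |m| → |m| ≤ |M| → Q ∣ t - P * m → Q * |t| - |m| ≤ |M| →
      Q ^ 2 * |m| + Q ^ 2 + 512 * |m| ≤ 256 * |m| * |M| * |m| := by
    intro m M hm hmM hd hM
    rcases lt_or_ge |m| Q with h1 | h1
    · obtain ⟨h2, h3⟩ := h m t hm h1 hd
      exact ineq Q |m| |M| |t| hQ hm h1 h2 hmM hM h3
    · have h2 : |m| * |m| ≤ |m| * |M| := mul_le_mul_of_nonneg_left hmM hm.le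
      have h3 : Q ^ 2 ≤ |m| * |m| := by nlinarith
      have h4 : |m| * Q ^ 2 ≤ |m| * (|m| * |M|) := mul_le_mul_of_nonneg_left (h3.trans h2) hm.le
      nlinarith
  have hQt : |Q * t| = Q * |t| := by rw [abs_mul, abs_of_pos hQ0]
  rcases le_total |b| |r| with h1 | h1
  · rw [min_eq_left h1]
    refine key b r hb h1 hdb ?_
    have : |Q * t| ≤ |r| + |b| := by
      have h2 : Q * t = r - b := by rw [hrt]; ring
      rw [h2]
      exact abs_sub _ _
    linarith
  · rw [min_eq_right h1]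
    have h3 := key r b hr h1 hdr (by
      have : |Q * t| ≤ |r| + |b| := by
        have h2 : Q * t = r - b := by rw [hrt]; ring
        rw [h2]
        exact abs_sub _ _
      linarith)
    calc _ ≤ _ := h3
      _ = _ := by ring

/-- the denominators `2 ^ (2 ^ j)` -/
def Qs (j : ℕ) : ℤ := 2 ^ (2 ^ j)

/-- the numerators of the partial sums -/
def Ps : ℕ → ℤ
  | 0 => 1
  | j + 1 => Ps j * Qs j + 1

lemma Qs_succ (j : ℕ) : Qs (j + 1) = Qs j ^ 2 := by
  unfold Qs
  rw [← pow_mul, pow_succ]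

lemma good_three : Good (Qs 3) (Ps 3) := by
  have e1 : Qs 3 = 256 := by norm_num [Qs]
  have e2 : Ps 3 = 209 := by norm_num [Ps, Qs]
  rw [e1, e2]
  intro n t hn hn2 ⟨w, hw⟩
  have ht : t = 209 * n + 256 * w := by linarith
  -- all products at least 4
  have h4 : 4 ≤ |n| * |t| := by
    rw [← abs_mul]
    by_contra hcon
    push Not at hcon
    have h0 : |t| < 4 := by
      rw [abs_mul] at hcon
      nlinarith [abs_nonneg t]
    have hn3 : |n| < 4 ∨ t = 0 := by
      by_cases htz : t = 0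
      · exact Or.inr htz
      · left
        have : 0 < |t| := abs_pos.mpr htz
        rw [abs_mul] at hcon
        nlinarith
    rcases hn3 with h5 | h5
    · rw [abs_lt] at h5 h0
      rw [abs_pos] at hn
      obtain ⟨h5a, h5b⟩ := h5
      have h5a' : -3 ≤ n := by omega
      interval_cases n <;> omega
    · rw [abs_lt] at hn2
      rw [abs_pos] at hn
      omega
  have ht0 : 0 < |t| := by
    by_contra hcon
    have : |t| = 0 := le_antisymm (not_lt.mp hcon) (abs_nonneg t)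
    rw [this] at h4
    simp at h4
  refine ⟨ht0, ?_⟩
  have hm : 1 ≤ min |n| |t| := le_min hn ht0
  nlinarith

lemma Qs_ge {j : ℕ} (hj : 3 ≤ j) : 256 ≤ Qs j := by
  unfold Qs
  have h1 : 2 ^ 3 ≤ 2 ^ j := Nat.pow_le_pow_right (by norm_num) hj
  calc (256 : ℤ) = 2 ^ 8 := by norm_num
    _ ≤ 2 ^ (2 ^ j) := pow_le_pow_right₀ (by norm_num) (by simpa using h1)

lemma good (j : ℕ) (hj : 3 ≤ j) : Good (Qs j) (Ps j) := by
  induction j, hj using Nat.le_induction with
  | base => exact good_three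
  | succ j hj ih =>
    rw [Qs_succ, Ps]
    exact step (Qs_ge hj) ih

/-- the number `α = 1/2 + 1/4 + 1/16 + 1/256 + ...` -/
noncomputable def alpha : ℝ := ∑' j : ℕ, (1 / 2 : ℝ) ^ (2 ^ j)

lemma summable_alpha : Summable (fun j : ℕ => (1 / 2 : ℝ) ^ (2 ^ j)) := by
  refine Summable.of_nonneg_of_le (fun j => by positivity) (fun j => ?_)
    (summable_geometric_of_lt_one (by norm_num : (0 : ℝ) ≤ 1 / 2) (by norm_num))
  exact pow_le_pow_of_le_one (by norm_num) (by norm_num) Nat.lt_two_pow_self.le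

lemma Qs_cast (j : ℕ) : ((Qs j : ℤ) : ℝ) = 2 ^ (2 ^ j) := by
  unfold Qs
  push_cast
  rfl

lemma Qs_pos (j : ℕ) : (0 : ℝ) < (Qs j : ℝ) := by
  rw [Qs_cast]
  positivity

lemma partial_sum (j : ℕ) :
    ∑ i ∈ Finset.range (j + 1), (1 / 2 : ℝ) ^ (2 ^ i) = (Ps j : ℝ) / (Qs j : ℝ) := by
  induction j with
  | zero => norm_num [Ps, Qs]
  | succ j ih =>
    rw [Finset.sum_range_succ, ih]
    have h := Qs_pos j
    have e : (1 / 2 : ℝ) ^ (2 ^ (j + 1)) = 1 / (Qs j : ℝ) ^ 2 := by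
      rw [Qs_cast, ← pow_mul, ← pow_succ, one_div, inv_pow, one_div]
    rw [e, Qs_succ, Ps]
    push_cast
    field_simp

lemma tail (j : ℕ) : 0 < alpha - (Ps j : ℝ) / (Qs j : ℝ) ∧
    alpha - (Ps j : ℝ) / (Qs j : ℝ) ≤ 2 / (Qs j : ℝ) ^ 2 := by
  have h := summable_alpha.sum_add_tsum_nat_add (j + 1)
  rw [partial_sum] at h
  have h1 : alpha - (Ps j : ℝ) / (Qs j : ℝ) = ∑' i : ℕ, (1 / 2 : ℝ) ^ (2 ^ (i + (j + 1))) := by
    unfold alpha
    linarith
  have hs : Summable (fun i : ℕ => (1 / 2 : ℝ) ^ (2 ^ (i + (j + 1)))) :=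
    (summable_nat_add_iff (f := fun i : ℕ => (1 / 2 : ℝ) ^ (2 ^ i)) (j + 1)).mpr summable_alpha
  rw [h1]
  refine ⟨hs.tsum_pos (fun i => by positivity) 0 (by positivity), ?_⟩
  have hg : Summable (fun i : ℕ => (1 / (Qs j : ℝ) ^ 2) * (1 / 2 : ℝ) ^ i) :=
    (summable_geometric_of_lt_one (by norm_num : (0 : ℝ) ≤ 1 / 2) (by norm_num)).mul_left _
  have hle : ∀ i : ℕ, (1 / 2 : ℝ) ^ (2 ^ (i + (j + 1))) ≤ (1 / (Qs j : ℝ) ^ 2) * (1 / 2 : ℝ) ^ i := by
    intro i
    have e : 1 / (Qs j : ℝ) ^ 2 = (1 / 2 : ℝ) ^ (2 ^ (j + 1)) := by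
      rw [Qs_cast, ← pow_mul, ← pow_succ, one_div, one_div, inv_pow]
    rw [e, ← pow_add]
    apply pow_le_pow_of_le_one (by norm_num) (by norm_num)
    have h2 : i < 2 ^ i := Nat.lt_two_pow_self
    have h3 : 1 ≤ 2 ^ (j + 1) := Nat.one_le_two_pow
    rw [pow_add 2 i (j + 1)]
    have h4 : (i + 1) * 2 ^ (j + 1) ≤ 2 ^ i * 2 ^ (j + 1) := Nat.mul_le_mul_right _ h2
    nlinarith
  calc ∑' i : ℕ, (1 / 2 : ℝ) ^ (2 ^ (i + (j + 1))) ≤ ∑' i : ℕ, (1 / (Qs j : ℝ) ^ 2) * (1 / 2 : ℝ) ^ i :=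
        hs.tsum_le_tsum hle hg
    _ = 2 / (Qs j : ℝ) ^ 2 := by
        rw [tsum_mul_left, tsum_geometric_of_lt_one (by norm_num) (by norm_num)]
        norm_num
        ring

lemma Qs_tendsto : Tendsto (fun j : ℕ => (Qs j : ℝ)) atTop atTop := by
  have h : Tendsto (fun j : ℕ => (j : ℝ)) atTop atTop := tendsto_natCast_atTop_atTop
  refine tendsto_atTop_mono (fun j => ?_) h
  rw [Qs_cast]
  have h1 : j < 2 ^ j := Nat.lt_two_pow_self
  have h2 : 2 ^ j < 2 ^ (2 ^ j) := Nat.lt_two_pow_self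
  have h3 : j ≤ 2 ^ (2 ^ j) := h1.le.trans h2.le
  calc (j : ℝ) ≤ ((2 ^ (2 ^ j) : ℕ) : ℝ) := Nat.cast_le.mpr h3
    _ = 2 ^ (2 ^ j) := by rw [Nat.cast_pow, Nat.cast_ofNat]

/-- `α` is badly approximable -/
lemma bad (a : ℤ) (n : ℕ) (hn : 1 ≤ n) : 1 / (256 * (n : ℝ)) ≤ |n * alpha - a| := by
  have hn0 : (0 : ℝ) < n := by exact_mod_cast hn
  have hlim : Tendsto (fun j : ℕ => |n * alpha - a| + n * (2 / (Qs j : ℝ) ^ 2)) atTop
      (𝓝 (|n * alpha - a| + n * 0)) := by
    apply Tendsto.const_add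
    apply Tendsto.const_mul
    have h1 : Tendsto (fun j : ℕ => (Qs j : ℝ) ^ 2) atTop atTop :=
      (tendsto_pow_atTop (by norm_num)).comp Qs_tendsto
    exact h1.const_div_atTop 2
  rw [mul_zero, add_zero] at hlim
  refine ge_of_tendsto hlim ?_
  filter_upwards [eventually_ge_atTop 3, Qs_tendsto.eventually_gt_atTop (n : ℝ)] with j hj hjn
  have hQ : n < Qs j := by exact_mod_cast hjn
  obtain ⟨h1, h2⟩ := good j hj n (Ps j * n - a * Qs j) (by
    rw [Nat.abs_cast]; exact_mod_cast hn) (by rw [Nat.abs_cast]; exact hQ) ⟨-a, by ring⟩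
  set t : ℤ := Ps j * n - a * Qs j with ht
  have h3 : Qs j ≤ 256 * (n : ℤ) * |t| := by
    have hm : 0 < min |(n : ℤ)| |t| := lt_min (by rw [Nat.abs_cast]; exact_mod_cast hn) h1
    rw [Nat.abs_cast] at h2 hm
    have hq := Qs_ge hj
    have h4 : Qs j * min (n : ℤ) |t| ≤ 256 * n * |t| * min (n : ℤ) |t| := by nlinarith
    exact le_of_mul_le_mul_right h4 hm
  have h4 : (Qs j : ℝ) ≤ 256 * n * |(t : ℝ)| := by exact_mod_cast h3
  have hQ0 := Qs_pos j
  have h5 : |(t : ℝ)| = Qs j * |n * ((Ps j : ℝ) / (Qs j : ℝ)) - a| := by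
    rw [← abs_of_pos hQ0, ← abs_mul, abs_of_pos hQ0, ht]
    push_cast
    congr 1
    field_simp
  have h6 : 1 / (256 * (n : ℝ)) ≤ |n * ((Ps j : ℝ) / (Qs j : ℝ)) - a| := by
    rw [div_le_iff₀ (by positivity)]
    rw [h5] at h4
    have h7 : (Qs j : ℝ) * 1 ≤ Qs j * (|n * ((Ps j : ℝ) / (Qs j : ℝ)) - a| * (256 * n)) := by
      linarith
    exact le_of_mul_le_mul_left h7 hQ0
  obtain ⟨h8, h9⟩ := tail j
  refine h6.trans ?_
  have h10 : n * ((Ps j : ℝ) / (Qs j : ℝ)) - a =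
      (n * alpha - a) + (-(n * (alpha - (Ps j : ℝ) / (Qs j : ℝ)))) := by ring
  rw [h10]
  refine (abs_add_le _ _).trans ?_
  rw [abs_neg, abs_of_nonneg (mul_nonneg hn0.le h8.le)]
  gcongr

/-- `α` is of type `κ` if `|α - a/q| ≥ C q ^ (-κ)` for some `C > 0` and all reduced fractions `a/q`. -/
def IsType (α κ : ℝ) : Prop :=
  ∃ C : ℝ, 0 < C ∧ ∀ (a : ℤ) (q : ℕ), 1 ≤ q → IsCoprime a (q : ℤ) →
    C * (q : ℝ) ^ (-κ) ≤ |α - a / q|

lemma bad' (a : ℤ) (q : ℕ) (hq : 1 ≤ q) : 1 / (256 * (q : ℝ) ^ 2) ≤ |alpha - a / q| := by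
  have hq0 : (0 : ℝ) < q := by exact_mod_cast hq
  have h := bad a q hq
  have e : |(q : ℝ) * alpha - a| = q * |alpha - a / q| := by
    rw [← abs_of_pos hq0, ← abs_mul, abs_of_pos hq0]
    congr 1
    field_simp
  rw [e] at h
  rw [div_le_iff₀ (by positivity)] at h ⊢
  nlinarith

lemma isType_two : IsType alpha 2 := by
  refine ⟨1 / 256, by norm_num, fun a q hq _ => ?_⟩
  have hq0 : (0 : ℝ) < q := by exact_mod_cast hq
  refine le_trans (le_of_eq ?_) (bad' a q hq)
  rw [Real.rpow_neg hq0.le]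
  norm_cast
  push_cast
  field_simp

lemma irrational_alpha : Irrational alpha := by
  rintro ⟨r, hr⟩
  have h := bad r.num r.den r.pos
  rw [← hr] at h
  have hd : (r.den : ℝ) ≠ 0 := by
    have := r.den_nz
    exact_mod_cast this
  have e : (r.den : ℝ) * (r : ℝ) - (r.num : ℝ) = 0 := by
    have : (r : ℝ) = (r.num : ℝ) / (r.den : ℝ) := by exact_mod_cast (Rat.num_div_den r).symm
    rw [this]
    field_simp
    ring
  rw [e, abs_zero] at h
  have : (0 : ℝ) < 1 / (256 * (r.den : ℝ)) := by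
    have := r.pos
    positivity
  linarith

/-- `x_n = {n² α}` -/
noncomputable def x (α : ℝ) (n : ℕ) : ℝ := Int.fract ((n : ℝ) ^ 2 * α)

open Classical in
/-- the `k`-tuples `(n_1, …, n_k)` of pairwise distinct integers with `1 ≤ n_i ≤ N` -/
noncomputable def Tuples (k N : ℕ) : Finset (Fin k → ℕ) :=
  (Fintype.piFinset fun _ => Finset.Icc 1 N).filter Function.Injective

/-- The `(r+1)`-level correlation `R_{r+1}(f, N)` of `{n² α}`. -/
noncomputable def R (α : ℝ) (r : ℕ) (f : (Fin r → ℝ) → ℝ) (N : ℕ) : ℝ :=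
  (1 / (N : ℝ)) * ∑ n ∈ Tuples (r + 1) N, ∑' m : Fin r → ℤ,
    f fun i => (N : ℝ) * (x α (n i.castSucc) - x α (n i.succ) + m i)

/-- `{n² α}` is Poissonian along the full sequence: every correlation of level `r + 1 ≥ 2` converges to
the integral of the test function. -/
def Poissonian (α : ℝ) : Prop :=
  ∀ r : ℕ, 1 ≤ r → ∀ f : (Fin r → ℝ) → ℝ, Continuous f → HasCompactSupport f →
    Tendsto (R α r f) atTop (𝓝 (∫ y, f y))

lemma mem_tuples {k N : ℕ} {n : Fin k → ℕ} :
    n ∈ Tuples k N ↔ (∀ i, 1 ≤ n i ∧ n i ≤ N) ∧ Function.Injective n := by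
  classical
  unfold Tuples
  rw [Finset.mem_filter, Fintype.mem_piFinset]
  simp only [Finset.mem_Icc]

lemma summable_inner {r : ℕ} {f : (Fin r → ℝ) → ℝ} (hf : HasCompactSupport f) (N : ℕ) (hN : 0 < N)
    (d : Fin r → ℝ) : Summable (fun m : Fin r → ℤ => f fun i => (N : ℝ) * (d i + m i)) := by
  obtain ⟨ρ, hρ⟩ := hf.isCompact.isBounded.subset_closedBall (0 : Fin r → ℝ)
  have hN0 : (0 : ℝ) < N := by exact_mod_cast hN
  have hN1 : (1 : ℝ) ≤ N := by exact_mod_cast hN
  apply summable_of_hasFiniteSupport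
  refine Set.Finite.subset (Set.Finite.pi' (t := fun i : Fin r => Set.Icc (-⌈ρ + |d i|⌉) ⌈ρ + |d i|⌉)
    (fun i => Set.finite_Icc _ _)) ?_
  intro m hm
  simp only [Function.mem_support] at hm
  simp only [Set.mem_ofPred_eq]
  intro i
  have h1 := hρ (subset_tsupport f hm)
  rw [mem_closedBall_zero_iff] at h1
  have h2 := (norm_le_pi_norm (fun i => (N : ℝ) * (d i + m i)) i).trans h1
  rw [Real.norm_eq_abs, abs_mul, abs_of_pos hN0] at h2
  have h3 : |d i + m i| ≤ ρ := by nlinarith [abs_nonneg (d i + (m i : ℝ))]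
  have h4 : |(m i : ℝ)| ≤ ρ + |d i| := by
    calc |(m i : ℝ)| = |(d i + m i) + (-d i)| := by congr 1; ring
      _ ≤ |d i + m i| + |-d i| := abs_add_le _ _
      _ ≤ ρ + |d i| := by rw [abs_neg]; linarith
  have h5 : |(m i : ℝ)| ≤ ⌈ρ + |d i|⌉ := h4.trans (Int.le_ceil _)
  have h6 : |m i| ≤ ⌈ρ + |d i|⌉ := by exact_mod_cast h5
  rw [Set.mem_Icc]
  exact abs_le.mp h6

/-- the cluster: the multiples of `u`, where `u ^ 2 = Q` -/
lemma cluster {j u l : ℕ} (hu : (u : ℝ) ^ 2 = Qs j) (hl : 2 * (l : ℝ) ^ 2 / Qs j < 1) :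
    0 ≤ x alpha (u * l) ∧ x alpha (u * l) ≤ 2 * (l : ℝ) ^ 2 / Qs j := by
  obtain ⟨h1, h2⟩ := tail j
  have hQ := Qs_pos j
  set δ := alpha - (Ps j : ℝ) / (Qs j : ℝ) with hδ
  have h3 : (l : ℝ) ^ 2 * (Qs j * δ) ≤ 2 * (l : ℝ) ^ 2 / Qs j := by
    calc (l : ℝ) ^ 2 * (Qs j * δ) ≤ (l : ℝ) ^ 2 * (Qs j * (2 / (Qs j : ℝ) ^ 2)) := by gcongr
      _ = 2 * (l : ℝ) ^ 2 / Qs j := by
          field_simp
  have h4 : x alpha (u * l) = (l : ℝ) ^ 2 * (Qs j * δ) := by
    unfold x
    rw [Int.fract_eq_iff]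
    refine ⟨by positivity, lt_of_le_of_lt h3 hl, (l : ℤ) ^ 2 * Ps j, ?_⟩
    push_cast
    rw [mul_pow, hu, hδ]
    field_simp
    ring
  rw [h4]
  exact ⟨by positivity, h3⟩

lemma lower {r : ℕ} {f : (Fin r → ℝ) → ℝ} (hf : HasCompactSupport f) (hf0 : ∀ y, 0 ≤ f y)
    {s ε : ℝ} (hs : ∀ y : Fin r → ℝ, (∀ i, |y i| ≤ s) → ε ≤ f y)
    {j u L : ℕ} (hu : (u : ℝ) ^ 2 = Qs j) (hu0 : 0 < u) (hL : 0 < L)
    (h1 : 2 * (((r : ℝ) + 1) * L) ^ 2 / Qs j < 1)
    (h2 : (u * (((r : ℝ) + 1) * L)) * (2 * (((r : ℝ) + 1) * L) ^ 2 / Qs j) ≤ s) :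
    ε * (L : ℝ) ^ r / (u * ((r : ℝ) + 1)) ≤ R alpha r f (u * ((r + 1) * L)) := by
  classical
  set N : ℕ := u * ((r + 1) * L) with hN
  have hN0 : 0 < N := by positivity
  have hNr : (0 : ℝ) < N := by exact_mod_cast hN0
  have hQ := Qs_pos j
  -- the tuples
  let φ : (Fin (r + 1) → Fin L) → (Fin (r + 1) → ℕ) := fun g i => u * (i * L + g i + 1)
  have hφinj : Function.Injective φ := by
    intro g g' h
    funext i
    have h3 := congrFun h i
    simp only [φ] at h3
    have h4 := Nat.eq_of_mul_eq_mul_left hu0 h3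
    apply Fin.ext
    omega
  have hbd : ∀ (g : Fin (r + 1) → Fin L) (i : Fin (r + 1)), (i : ℕ) * L + g i + 1 ≤ (r + 1) * L := by
    intro g i
    have h3 := (g i).2
    have h4 : (i : ℕ) ≤ r := by have := i.2; omega
    have h5 : (i : ℕ) * L ≤ r * L := Nat.mul_le_mul_right L h4
    have h6 : (r + 1) * L = r * L + L := by ring
    omega
  have hmem : ∀ g, φ g ∈ Tuples (r + 1) N := by
    intro g
    rw [mem_tuples]
    refine ⟨fun i => ⟨?_, ?_⟩, ?_⟩
    · exact Nat.succ_le_of_lt (Nat.mul_pos hu0 (by omega))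
    · exact Nat.mul_le_mul_left u (hbd g i)
    · intro i i' h
      simp only [φ] at h
      have h4 := Nat.eq_of_mul_eq_mul_left hu0 h
      have h5 : (i : ℕ) * L + g i = i' * L + g i' := by omega
      have h6 : ((i : ℕ) * L + g i) / L = (i' * L + g i') / L := by rw [h5]
      rw [mul_comm (i : ℕ) L, mul_comm (i' : ℕ) L, Nat.mul_add_div hL, Nat.mul_add_div hL,
        Nat.div_eq_of_lt (g i).2, Nat.div_eq_of_lt (g i').2] at h6
      apply Fin.ext
      omega
  -- the values on the cluster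
  have hval : ∀ (g : Fin (r + 1) → Fin L) (i : Fin (r + 1)),
      0 ≤ x alpha (φ g i) ∧ x alpha (φ g i) ≤ 2 * (((r : ℝ) + 1) * L) ^ 2 / Qs j := by
    intro g i
    have h3 : (((i : ℕ) * L + g i + 1 : ℕ) : ℝ) ≤ ((r : ℝ) + 1) * L := by
      exact_mod_cast hbd g i
    have h4 : 2 * (((i : ℕ) * L + g i + 1 : ℕ) : ℝ) ^ 2 / Qs j ≤
        2 * (((r : ℝ) + 1) * L) ^ 2 / Qs j := by gcongr
    have h5 := cluster (l := (i : ℕ) * L + g i + 1) hu (lt_of_le_of_lt h4 h1)
    exact ⟨h5.1, h5.2.trans h4⟩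
  -- each term
  have hterm : ∀ g : Fin (r + 1) → Fin L, ε ≤ ∑' m : Fin r → ℤ,
      f fun i => (N : ℝ) * (x alpha (φ g i.castSucc) - x alpha (φ g i.succ) + m i) := by
    intro g
    have h3 := summable_inner hf N hN0
      (fun i => x alpha (φ g i.castSucc) - x alpha (φ g i.succ))
    refine le_trans ?_ (h3.le_tsum (0 : Fin r → ℤ) (fun m _ => hf0 _))
    apply hs
    intro i
    simp only [Pi.zero_apply, Int.cast_zero, add_zero]
    rw [abs_mul, abs_of_pos hNr]
    obtain ⟨a1, a2⟩ := hval g i.castSucc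
    obtain ⟨b1, b2⟩ := hval g i.succ
    have h4 : |x alpha (φ g i.castSucc) - x alpha (φ g i.succ)| ≤
        2 * (((r : ℝ) + 1) * L) ^ 2 / Qs j := by
      rw [abs_le]
      constructor <;> linarith
    refine le_trans (mul_le_mul_of_nonneg_left h4 hNr.le) ?_
    refine le_trans (le_of_eq ?_) h2
    rw [hN]
    push_cast
    ring
  -- sum
  have hsum : (L : ℝ) ^ (r + 1) * ε ≤ ∑ n ∈ Tuples (r + 1) N, ∑' m : Fin r → ℤ,
      f fun i => (N : ℝ) * (x alpha (n i.castSucc) - x alpha (n i.succ) + m i) := by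
    have h3 : ∑ n ∈ (Finset.univ.image φ), ∑' m : Fin r → ℤ,
        f (fun i => (N : ℝ) * (x alpha (n i.castSucc) - x alpha (n i.succ) + m i)) ≤
        ∑ n ∈ Tuples (r + 1) N, ∑' m : Fin r → ℤ,
        f fun i => (N : ℝ) * (x alpha (n i.castSucc) - x alpha (n i.succ) + m i) := by
      apply Finset.sum_le_sum_of_subset_of_nonneg
      · intro n hn
        rw [Finset.mem_image] at hn
        obtain ⟨g, -, rfl⟩ := hn
        exact hmem g
      · intro n _ _
        exact tsum_nonneg fun m => hf0 _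
    refine le_trans ?_ h3
    rw [Finset.sum_image (fun g _ g' _ h => hφinj h)]
    have h4 := Finset.card_nsmul_le_sum (Finset.univ : Finset (Fin (r + 1) → Fin L))
      (fun g => ∑' m : Fin r → ℤ,
        f fun i => (N : ℝ) * (x alpha (φ g i.castSucc) - x alpha (φ g i.succ) + m i)) ε
      (fun g _ => hterm g)
    rw [Finset.card_univ, Fintype.card_pi, nsmul_eq_mul] at h4
    simp only [Fintype.card_fin, Finset.prod_const, Finset.card_univ] at h4
    push_cast at h4
    exact h4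
  unfold R
  rw [one_div, inv_mul_eq_div, div_le_div_iff₀ (by positivity) hNr]
  have h5 : (N : ℝ) = u * ((r : ℝ) + 1) * L := by rw [hN]; push_cast; ring
  calc ε * (L : ℝ) ^ r * N = ((L : ℝ) ^ (r + 1) * ε) * (u * ((r : ℝ) + 1)) := by rw [h5]; ring
    _ ≤ _ := mul_le_mul_of_nonneg_right hsum (by positivity)

lemma pow_four (i : ℕ) : ∃ e : ℕ, 4 ^ i = 3 * e + 1 ∧ i ≤ e := by
  induction i with
  | zero => exact ⟨0, by norm_num, le_rfl⟩
  | succ i ih =>
    obtain ⟨e, h1, h2⟩ := ih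
    exact ⟨4 * e + 1, by rw [pow_succ, h1]; ring, by omega⟩

/-- The correlations of level `r + 1 ≥ 5` tend to infinity along a sequence. -/
lemma diverge {r : ℕ} (hr : 4 ≤ r) {f : (Fin r → ℝ) → ℝ} (hfc : Continuous f)
    (hf : HasCompactSupport f) (hf0 : ∀ y, 0 ≤ f y) (hf1 : 0 < f 0) :
    ∃ N : ℕ → ℕ, Tendsto N atTop atTop ∧ Tendsto (fun i => R alpha r f (N i)) atTop atTop := by
  choose e he1 he2 using pow_four
  -- a neighbourhood of `0` where `f` is at least `f 0 / 2`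
  obtain ⟨s, hs0, hs⟩ : ∃ s : ℝ, 0 < s ∧ ∀ y : Fin r → ℝ, (∀ i, |y i| ≤ s) → f 0 / 2 ≤ f y := by
    have h1 : ∀ᶠ y in 𝓝 (0 : Fin r → ℝ), f 0 / 2 < f y :=
      hfc.continuousAt.eventually_const_lt (by linarith)
    obtain ⟨t, ht, hball⟩ := Metric.eventually_nhds_iff.mp h1
    refine ⟨t / 2, by linarith, fun y hy => (hball ?_).le⟩
    rw [dist_zero_right]
    have h2 : ‖y‖ ≤ t / 2 := (pi_norm_le_iff_of_nonneg (by linarith)).mpr fun i => by
      rw [Real.norm_eq_abs]
      exact hy i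
    linarith
  -- the parameter `a`
  obtain ⟨a, ha⟩ : ∃ a : ℕ, ((r : ℝ) + 1) ^ 3 * (1 / 8) ^ a ≤ min s (1 / 2) := by
    have h1 : Tendsto (fun a : ℕ => ((r : ℝ) + 1) ^ 3 * (1 / 8) ^ a) atTop (𝓝 (((r : ℝ) + 1) ^ 3 * 0)) :=
      (tendsto_pow_atTop_nhds_zero_of_lt_one (by norm_num) (by norm_num)).const_mul _
    rw [mul_zero] at h1
    obtain ⟨a, ha⟩ := (h1.eventually (gt_mem_nhds (show (0 : ℝ) < min s (1 / 2) by positivity))).exists
    exact ⟨a, ha.le⟩
  set u : ℕ → ℕ := fun i => 2 ^ (3 * e i + 1) with hu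
  set L : ℕ → ℕ := fun i => 2 ^ (e i - a) with hL
  set N : ℕ → ℕ := fun i => u i * ((r + 1) * L i) with hN
  have he : Tendsto e atTop atTop := tendsto_atTop_mono he2 tendsto_id
  refine ⟨N, ?_, ?_⟩
  · refine tendsto_atTop_mono (fun i => ?_) he
    have h1 : e i < 2 ^ (e i) := Nat.lt_two_pow_self
    have h2 : 2 ^ (e i) ≤ u i := Nat.pow_le_pow_right (by norm_num) (by omega)
    have h3 : 0 < (r + 1) * L i := by positivity
    calc e i ≤ u i := by omega
      _ ≤ N i := Nat.le_mul_of_pos_right _ h3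
  · -- lower bound
    have hlow : ∀ᶠ i in atTop, (f 0 / 2 / (2 * 16 ^ a * ((r : ℝ) + 1))) * 2 ^ (e i) ≤ R alpha r f (N i) := by
      filter_upwards [he.eventually_ge_atTop a] with i hi
      have hQ : ((u i : ℕ) : ℝ) ^ 2 = Qs (2 * i + 1) := by
        rw [Qs_cast, hu]
        push_cast
        rw [← pow_mul]
        congr 1
        rw [← he1 i, pow_succ, pow_mul]
        norm_num
      have hu0 : 0 < u i := by positivity
      have hL0 : 0 < L i := by positivity
      have hu0' : (0 : ℝ) < u i := by exact_mod_cast hu0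
      have hL1' : (1 : ℝ) ≤ L i := by exact_mod_cast hL0
      have hu1' : (1 : ℝ) ≤ u i := by exact_mod_cast hu0
      have hL3 : 2 * (L i : ℝ) ^ 3 = u i * (1 / 8) ^ a := by
        have h1 : (L i : ℝ) * 2 ^ a = 2 ^ (e i) := by
          rw [hL]
          push_cast
          rw [← pow_add]
          congr 1
          omega
        have h2 : (u i : ℝ) = 2 * (2 ^ (e i)) ^ 3 := by
          rw [hu]
          push_cast
          rw [pow_succ, mul_comm 3, pow_mul]
          ring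
        rw [h2, ← h1, one_div, inv_pow, mul_pow]
        have h3 : ((2 : ℝ) ^ a) ^ 3 = 8 ^ a := by
          rw [← pow_mul, mul_comm, pow_mul]
          norm_num
        rw [h3]
        field_simp
      have hmain : (u i * (((r : ℝ) + 1) * L i)) * (2 * (((r : ℝ) + 1) * L i) ^ 2 / Qs (2 * i + 1)) =
          ((r : ℝ) + 1) ^ 3 * (1 / 8) ^ a := by
        rw [← hQ]
        calc (u i * (((r : ℝ) + 1) * L i)) * (2 * (((r : ℝ) + 1) * L i) ^ 2 / (u i : ℝ) ^ 2)
            = ((r : ℝ) + 1) ^ 3 * (2 * (L i : ℝ) ^ 3) / u i := by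
              field_simp
          _ = ((r : ℝ) + 1) ^ 3 * (1 / 8) ^ a := by
              rw [hL3]
              field_simp
      have h1 := lower hf hf0 hs hQ hu0 hL0 (by
        have h2 : (2 * (((r : ℝ) + 1) * L i) ^ 2 / Qs (2 * i + 1)) ≤
            (u i * (((r : ℝ) + 1) * L i)) * (2 * (((r : ℝ) + 1) * L i) ^ 2 / Qs (2 * i + 1)) := by
          have h3 := Qs_pos (2 * i + 1)
          apply le_mul_of_one_le_left (by positivity)
          have h4 : (0 : ℝ) ≤ r := Nat.cast_nonneg r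
          nlinarith [mul_nonneg h4 (zero_le_one.trans hL1')]
        rw [hmain] at h2
        have := ha.trans (min_le_right _ _)
        linarith) (by rw [hmain]; exact ha.trans (min_le_left _ _))
      refine le_trans ?_ h1
      have h5 : (L i : ℝ) ^ 4 ≤ (L i : ℝ) ^ r := pow_le_pow_right₀ hL1' hr
      have h6 : 2 ^ (e i) * (u i : ℝ) = 2 * 16 ^ a * (L i : ℝ) ^ 4 := by
        have h7 : (L i : ℝ) * 2 ^ a = 2 ^ (e i) := by
          rw [hL]
          push_cast
          rw [← pow_add]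
          congr 1
          omega
        have h2 : (u i : ℝ) = 2 * (2 ^ (e i)) ^ 3 := by
          rw [hu]
          push_cast
          rw [pow_succ, mul_comm 3, pow_mul]
          ring
        have h3 : ((2 : ℝ) ^ a) ^ 4 = 16 ^ a := by
          rw [← pow_mul, mul_comm, pow_mul]
          norm_num
        rw [h2, ← h7, ← h3]
        ring
      rw [le_div_iff₀ (by positivity)]
      calc f 0 / 2 / (2 * 16 ^ a * ((r : ℝ) + 1)) * 2 ^ (e i) * (u i * ((r : ℝ) + 1))
          = f 0 / 2 / (2 * 16 ^ a) * (2 ^ (e i) * (u i : ℝ)) := by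
            field_simp
        _ = f 0 / 2 * (L i : ℝ) ^ 4 := by
            rw [h6]
            field_simp
        _ ≤ f 0 / 2 * (L i : ℝ) ^ r := by gcongr
    refine tendsto_atTop_mono' _ hlow ?_
    apply Tendsto.const_mul_atTop (by positivity)
    exact (tendsto_pow_atTop_atTop_of_one_lt (by norm_num : (1 : ℝ) < 2)).comp he

/-- there is a suitable test function -/
lemma exists_test (r : ℕ) : ∃ f : (Fin r → ℝ) → ℝ, Continuous f ∧ HasCompactSupport f ∧
    (∀ y, 0 ≤ f y) ∧ 0 < f 0 := by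
  refine ⟨fun y => max 0 (1 - ‖y‖), by fun_prop, ?_, fun y => le_max_left _ _, by simp⟩
  apply HasCompactSupport.of_support_subset_isCompact (isCompact_closedBall (0 : Fin r → ℝ) 1)
  intro y hy
  rw [Function.mem_support] at hy
  rw [mem_closedBall_zero_iff]
  by_contra hcon
  push Not at hcon
  exact hy (max_eq_left (by linarith))

lemma not_poissonian : ¬ Poissonian alpha := by
  intro h
  obtain ⟨f, h1, h2, h3, h4⟩ := exists_test 4
  obtain ⟨N, hN, hR⟩ := diverge le_rfl h1 h2 h3 h4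
  exact not_tendsto_nhds_of_tendsto_atTop hR _ ((h 4 (by norm_num) f h1 h2).comp hN)

/-- **Theorem.** Let `α = 1/2 + 1/4 + 1/16 + 1/256 + ⋯ = ∑ 2 ^ (-2 ^ j)`.

(1) `α` is irrational and badly approximable: `|α - a/q| ≥ 1 / (256 q²)` for all integers `a` and `q ≥ 1`; in
particular `α` is of type `2`.

(2) For every level `k = r + 1 ≥ 5` and every continuous compactly supported `f ≥ 0` with `f 0 > 0` the `k`-level
correlations `R_k(f, N)` of `{n² α}` tend to infinity along a sequence of `N → ∞`.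

(3) Hence `{n² α}` is not Poissonian along the full sequence, and the assertion `for every irrational α which is of
type κ for some κ < 3, {n² α} is Poissonian` is false. -/
theorem result :
    (Irrational alpha ∧ (∀ (a : ℤ) (q : ℕ), 1 ≤ q → 1 / (256 * (q : ℝ) ^ 2) ≤ |alpha - a / q|) ∧
      IsType alpha 2) ∧
    (∀ r : ℕ, 4 ≤ r → ∀ f : (Fin r → ℝ) → ℝ, Continuous f → HasCompactSupport f → (∀ y, 0 ≤ f y) →
      0 < f 0 →
      ∃ N : ℕ → ℕ, Tendsto N atTop atTop ∧ Tendsto (fun i => R alpha r f (N i)) atTop atTop) ∧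
    ¬ Poissonian alpha ∧
    ¬ (∀ α κ : ℝ, Irrational α → κ < 3 → IsType α κ → Poissonian α) :=
  ⟨⟨irrational_alpha, bad', isType_two⟩, fun _ hr _ h1 h2 h3 h4 => diverge hr h1 h2 h3 h4,
    not_poissonian, fun h => not_poissonian (h alpha 2 irrational_alpha (by norm_num) isType_two)⟩

end Pool.Agent.Results.MP_0a44cb_nt.BadlyApproximable
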